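import Pool.Agent.helper48.AGR.Spec

/-! # MP_def0df_al, project AGR, row OUT: the limit group -/

set_option autoImplicit false

namespace Pool.Agent.AGR

open Monoid Function

/-- `Cen` is a subgroup -/
theorem OUT_one {X : Type} [Group X] (w : Vt →* X) : Cen w 1 := fun _ => Commute.one_left _

theorem OUT_mul {X : Type} [Group X] (w : Vt →* X) {x y : X} (hx : Cen w x) (hy : Cen w y) : Cen w (x * y) :=
  fun a => (hx a).mul_left (hy a)

theorem OUT_inv {X : Type} [Group X] (w : Vt →* X) {x : X} (hx : Cen w x) : Cen w x⁻¹ :=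
  fun a => (hx a).inv_left

theorem OUT_closure {X : Type} [Group X] (w : Vt →* X) (A : Set X) (hA : ∀ a ∈ A, Cen w a) (x : X)
    (hx : x ∈ Subgroup.closure A) : Cen w x := by
  induction hx using Subgroup.closure_induction with
  | mem x hx => exact hA x hx
  | one => exact OUT_one w
  | mul x y _ _ h1 h2 => exact OUT_mul w h1 h2
  | inv x _ h => exact OUT_inv w h

/-- the generated subgroup is stable -/
theorem OUT_stable {Y : Type} [Group Y] (τ : MulAut Y) (A : Finset Y) (j : ℤ) (x : Y)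
    (hx : x ∈ Subgroup.closure {x | ∃ k : ℤ, ∃ a ∈ A, x = (τ ^ k) a}) :
    (τ ^ j) x ∈ Subgroup.closure {x | ∃ k : ℤ, ∃ a ∈ A, x = (τ ^ k) a} := by
  induction hx using Subgroup.closure_induction with
  | mem x hx =>
    obtain ⟨k, a, ha, rfl⟩ := hx
    refine Subgroup.subset_closure ⟨j + k, a, ha, ?_⟩
    rw [zpow_add, MulAut.mul_apply]
  | one => rw [map_one]; exact Subgroup.one_mem _
  | mul x y _ _ h1 h2 => rw [map_mul]; exact Subgroup.mul_mem _ h1 h2
  | inv x _ h => rw [map_inv]; exact Subgroup.inv_mem _ h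

theorem OUT_cenτ {Y : Type} [Group Y] (w : Vt →* Y) (τ : MulAut Y) (hτ : ∀ a, τ (w a) = w a) {c : Y}
    (hc : Cen w c) : Cen w (τ c) := by
  intro a
  have h := (hc a).map τ
  rw [hτ a] at h
  exact h

/-- **OUT**. -/
theorem OUT (hS0 : S0_stmt) (hPHI : PHI_stmt) (hLIM : LIM_stmt) : OUT_stmt := by
  obtain ⟨S₀, A₀, hA₀, heV, heA, hec, hVtr⟩ := hS0
  obtain ⟨C, m, hC0, hm⟩ : ∃ (C : ℕ → Sys) (m : ∀ n, Mor (C n) (C (n + 1))), C 0 = S₀ ∧
      ∀ n, Phi (C n) (C (n + 1)) (m n) := by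
    choose nx mn hn using hPHI
    exact ⟨fun n => Nat.rec S₀ (fun _ S => nx S) n, fun n => mn _, rfl, fun n => hn _⟩
  subst hC0
  obtain ⟨Y, _, ι, τ, hι, hcomp, hsurj, hτ⟩ := hLIM C m (fun n => (hm n).1)
  let w : Vt →* Y := (ι 0).comp (C 0).w
  have hw : ∀ n a, ι n ((C n).w a) = w a := by
    intro n
    induction n with
    | zero => intro a; rfl
    | succ n ih =>
      intro a
      have h1 : (C (n + 1)).w a = (m n).j ((C n).w a) := by
        change (C (n + 1)).p ((C (n + 1)).v a) = (m n).j ((C n).p ((C n).v a))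
        rw [← (m n).jv a, (m n).jp]
      rw [h1, hcomp]
      exact ih a
  have hcen : ∀ n x, Cen (C n).w x ↔ Cen w (ι n x) := by
    intro n x
    constructor
    · intro h a
      rw [← hw n a]
      exact (h a).map (ι n)
    · intro h a
      have h1 := h a
      rw [← hw n a] at h1
      refine hι n ?_
      rw [map_mul, map_mul]
      exact h1
  have hVG : VG w := by
    refine ⟨(hι 0).comp (C 0).vg.inj, ?_, ?_⟩
    · intro y a
      obtain ⟨n, x, rfl⟩ := hsurj y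
      obtain ⟨b, hb⟩ := (C n).vg.nrm x a
      refine ⟨b, ?_⟩
      rw [← hw n a, ← hw n b, ← map_inv, ← map_mul, ← map_mul]
      exact congrArg (ι n) hb
    · intro y hy k hk
      obtain ⟨n, x, rfl⟩ := hsurj y
      rintro ⟨a, ha⟩
      obtain ⟨b, hb⟩ := (C n).vg.tf x ((hcen n x).2 hy) k hk ⟨a, hι n (by
        rw [map_pow, ha]
        exact (hw n a).symm)⟩
      refine ⟨b, ?_⟩
      rw [← hw n b]
      exact congrArg (ι n) hb
  have hτw : ∀ a, τ (w a) = w a := by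
    intro a
    have h1 := hτ 0 ((C 0).v a)
    rw [← (C 0).hv a] at h1
    exact h1
  let A : Finset Y := A₀.map ⟨ι 0, hι 0⟩
  let e₀ : Y := ι 0 ((C 0).e 0)
  have hAc : ∀ a ∈ A, Cen w a := by
    intro a ha
    obtain ⟨b, hb, rfl⟩ := Finset.mem_map.1 ha
    exact (hcen 0 b).1 (hA₀ b hb)
  have he₀c : Cen w e₀ := (hcen 0 _).1 (OUT_closure _ _ (fun a ha => hA₀ a ha) _ (heA 0).1)
  have he₀V : ∀ a, e₀ ≠ w a := fun a h => heV 0 a (hι 0 h)
  have hclos : ∀ x : (C 0).X, x ∈ Subgroup.closure (A₀ : Set (C 0).X) →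
      ι 0 x ∈ Subgroup.closure {x | ∃ k : ℤ, ∃ a ∈ A, x = (τ ^ k) a} := by
    intro x hx
    induction hx using Subgroup.closure_induction with
    | mem x hx =>
      refine Subgroup.subset_closure ⟨0, ι 0 x, Finset.mem_map.2 ⟨x, hx, rfl⟩, ?_⟩
      rw [zpow_zero]
      rfl
    | one => rw [map_one]; exact Subgroup.one_mem _
    | mul x y _ _ h1 h2 => rw [map_mul]; exact Subgroup.mul_mem _ h1 h2
    | inv x _ h => rw [map_inv]; exact Subgroup.inv_mem _ h
  have hst1 : ∀ x, x ∈ Subgroup.closure {x | ∃ k : ℤ, ∃ a ∈ A, x = (τ ^ k) a} →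
      τ x ∈ Subgroup.closure {x | ∃ k : ℤ, ∃ a ∈ A, x = (τ ^ k) a} := by
    intro x hx
    have := OUT_stable τ A 1 x hx
    rwa [zpow_one] at this
  have hst2 : ∀ x, τ x ∈ Subgroup.closure {x | ∃ k : ℤ, ∃ a ∈ A, x = (τ ^ k) a} →
      x ∈ Subgroup.closure {x | ∃ k : ℤ, ∃ a ∈ A, x = (τ ^ k) a} := by
    intro x hx
    have := OUT_stable τ A (-1) _ hx
    rwa [zpow_neg, zpow_one, MulAut.inv_apply_self] at this
  have hind : ∀ n, (∀ i, ι n ((C n).e i) ∈ Subgroup.closure {x | ∃ k : ℤ, ∃ a ∈ A, x = (τ ^ k) a}) ∧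
      (∀ i, ι n ((C n).f i) ∈ Subgroup.closure {x | ∃ k : ℤ, ∃ a ∈ A, x = (τ ^ k) a}) ∧
      ∀ i, ∃ (c : Y) (k : ℤ), Cen w c ∧ ι n ((C n).e i) = c * (τ ^ k) e₀ * c⁻¹ := by
    intro n
    induction n with
    | zero =>
      refine ⟨fun i => hclos _ (heA i).1, fun i => hclos _ (heA i).2, fun i => ?_⟩
      obtain ⟨c, hc, hce⟩ := hec i
      refine ⟨ι 0 c, 0, (hcen 0 c).1 (OUT_closure _ _ (fun a ha => hA₀ a ha) _ hc), ?_⟩
      rw [zpow_zero, MulAut.one_apply, ← map_inv, ← map_mul, ← map_mul]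
      exact congrArg (ι 0) hce.symm
    | succ n ih =>
      obtain ⟨ih1, ih2, ih3⟩ := ih
      have key : ∀ i, ∃ i', ι (n + 1) ((C (n + 1)).e i) = τ (ι n ((C n).e i')) := by
        intro i
        obtain ⟨i', γ, h1, h2⟩ := (hm n).2.2.2.1 i
        refine ⟨i', ?_⟩
        have h3 := hτ (n + 1) γ
        rw [h1, h2, hcomp] at h3
        exact h3.symm
      have key2 : ∀ i, ∃ i', τ (ι (n + 1) ((C (n + 1)).f i)) = ι n ((C n).f i') := by
        intro i
        obtain ⟨i', γ, h1, h2⟩ := (hm n).2.2.2.2 i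
        refine ⟨i', ?_⟩
        have h3 := hτ (n + 1) γ
        rw [h1, h2, hcomp] at h3
        exact h3
      refine ⟨fun i => ?_, fun i => ?_, fun i => ?_⟩
      · obtain ⟨i', h⟩ := key i
        rw [h]
        exact hst1 _ (ih1 i')
      · obtain ⟨i', h⟩ := key2 i
        apply hst2
        rw [h]
        exact ih2 i'
      · obtain ⟨i', h⟩ := key i
        obtain ⟨c, k, hc, hk⟩ := ih3 i'
        refine ⟨τ c, 1 + k, OUT_cenτ w τ hτw hc, ?_⟩
        rw [h, hk, map_mul, map_mul, map_inv, zpow_add, MulAut.mul_apply, zpow_one]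
  have hnonV : ∀ u, Cen w u → (∀ a, u ≠ w a) →
      u ∈ Subgroup.closure {x | ∃ k : ℤ, ∃ a ∈ A, x = (τ ^ k) a} ∧
      ∃ (c : Y) (k : ℤ), Cen w c ∧ c * (τ ^ k) e₀ * c⁻¹ = u := by
    intro u hu huV
    obtain ⟨n, x, rfl⟩ := hsurj u
    obtain ⟨i, i', y, γ₁, γ₂, hy, h1, h2, h3, h4⟩ := (hm n).2.1 x ((hcen n x).2 hu) (fun a h => huV a (by
      rw [h]
      exact hw n a))
    have g1 := hτ (n + 1) γ₁
    rw [h1, h2, hcomp, map_mul, map_mul, map_inv, hcomp] at g1
    have g2 := hτ (n + 1) γ₂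
    rw [h3, h4, hcomp] at g2
    have hyc : Cen w (ι (n + 1) y) := (hcen (n + 1) y).1 hy
    have hyK : ι (n + 1) y ∈ Subgroup.closure {x | ∃ k : ℤ, ∃ a ∈ A, x = (τ ^ k) a} := by
      apply hst2
      rw [g2]
      exact (hind n).2.1 i'
    have hux : ι n x = (ι (n + 1) y)⁻¹ * τ (ι n ((C n).e i)) * ι (n + 1) y := by
      rw [g1]
      group
    refine ⟨?_, ?_⟩
    · rw [hux]
      exact Subgroup.mul_mem _ (Subgroup.mul_mem _ (Subgroup.inv_mem _ hyK) (hst1 _ ((hind n).1 i))) hyK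
    · obtain ⟨c, k, hc, hk⟩ := (hind n).2.2 i
      refine ⟨(ι (n + 1) y)⁻¹ * τ c, 1 + k, OUT_mul w (OUT_inv w hyc) (OUT_cenτ w τ hτw hc), ?_⟩
      rw [hux, hk, map_mul, map_mul, map_inv, zpow_add, MulAut.mul_apply, zpow_one]
      group
  refine ⟨Y, inferInstance, w, τ, A, e₀, hVG, hτw, hAc, he₀c, he₀V, ?_, fun u hu huV => (hnonV u hu huV).2, ?_, ?_⟩
  · intro u hu
    by_cases h : ∀ a, u ≠ w a
    · exact (hnonV u hu h).1
    · push Not at h
      obtain ⟨a, rfl⟩ := h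
      have h1 := (hnonV (w a * e₀) (OUT_mul w hu he₀c) (fun b hb => he₀V (a⁻¹ * b) (by
        rw [map_mul, map_inv, ← hb]
        group))).1
      have h2 := (hnonV e₀ he₀c he₀V).1
      have h3 := Subgroup.mul_mem _ h1 (Subgroup.inv_mem _ h2)
      rwa [mul_inv_cancel_right] at h3
  · intro a b ha hb
    obtain ⟨x, hx⟩ := hVtr a b ha hb
    refine ⟨ι 0 x, ?_⟩
    change ι 0 x * ι 0 ((C 0).w a) * (ι 0 x)⁻¹ = ι 0 ((C 0).w b)
    rw [← map_inv, ← map_mul, ← map_mul]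
    exact congrArg (ι 0) hx
  · intro u hu k
    obtain ⟨n, x, rfl⟩ := hsurj u
    obtain ⟨z, γ, hz, hzγ, hzk⟩ := (hm n).2.2.1 x ((hcen n x).2 hu) k
    refine ⟨ι (n + 1) (z 0), (hcen (n + 1) _).1 (hz 0), ?_⟩
    have hpow : ∀ j, j ≤ k + 1 → (τ ^ j) (ι (n + 1) (z 0)) = ι (n + 1) (z j) := by
      intro j
      induction j with
      | zero => intro _; rw [pow_zero]; rfl
      | succ j ih =>
        intro hj
        rw [pow_succ', MulAut.mul_apply, ih (by omega)]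
        have h1 := hτ (n + 1) (γ j)
        rw [(hzγ j (by omega)).1, (hzγ j (by omega)).2] at h1
        exact h1
    rw [hpow (k + 1) le_rfl, hzk, map_mul, map_inv, hcomp]

end Pool.Agent.AGR
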